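import Pool.Agent.H78.RA33D

set_option autoImplicit false
open Pool.Agent.H78.RA33

theorem Pool.Agent.Results.MP_793ea6_al.Exists.result :
    ∃ col : Fin 8192 → Fin 8192 → Fin 3, IsRep col :=
  ⟨col, rep⟩
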